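import Pool.Agent.Y522.Stm3
import Pool.Agent.Y522.Tools
import Pool.Agent.Y522.Sum

/-!
# SH-MazurRed3: the Mazur lemma with local smoothness, reduction to the flat case (after Y228.SH.MazurRed)
-/

set_option autoImplicit false
set_option linter.all false

open Set Filter Topology Metric Function MeasureTheory
open scoped Manifold ContDiff

noncomputable section

namespace Pool.Agent.Y419.SH

open Pool.Agent.Y522

theorem mazurRed3 (hA : StAdapt) (hG : StGerm) (hF : StMazurFlat3) : StMazur3 := by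
  intro m N φ s₀ hN hφc hφ hcomp hd hs₀N hs₀ hK L hL hLN
  have hn : (∞ : WithTop ℕ∞) ≠ 0 := by simp
  -- adapted coordinates
  obtain ⟨e, he1, he2, he3⟩ := hA m (E (m + 1)) φ s₀
    (by
      filter_upwards [hφ s₀ hs₀N hs₀] with y hy
      exact contMDiffAt_iff_contDiffAt.2 hy)
    (by
      rw [mfderiv_eq_fderiv]
      exact hd s₀ hs₀N hs₀)
  obtain ⟨q, hq1, hq2, hq3, hq4⟩ := he1.exists_inverse
  rw [he2] at hq1 hq2 hq4
  obtain ⟨Θ, hΘb, hΘd, hΘq⟩ := exists_normalise hG q hq1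
  have hΘe : ∀ᶠ y in 𝓝 s₀, Θ y = e y := by
    have h1 : Tendsto e (𝓝 s₀) (𝓝 0) := by
      have := he1.continuousAt
      unfold ContinuousAt at this
      rwa [he2] at this
    filter_upwards [h1.eventually hΘq, hq3] with y hy1 hy2
    rw [hy2] at hy1
    exact hy1
  have hΘ0 : Θ s₀ = 0 := by rw [hΘe.self_of_nhds, he2]
  obtain ⟨Ti, hTi1, hTi2⟩ : ∃ Ti : E (m + 1) → E (m + 1), (∀ x, Ti (Θ x) = x) ∧ ∀ y, Θ (Ti y) = y := by
    obtain ⟨Ti, h1, h2⟩ := Function.bijective_iff_has_inverse.1 hΘb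
    exact ⟨Ti, h1, h2⟩
  have hTid : ∀ y, LD (m + 1) Ti y := LD.inverse_bij hΘb hΘd hTi1
  have hΘc : Continuous Θ := LD.continuous_of_forall hΘd
  have hTic : Continuous Ti := LD.continuous_of_forall hTid
  have hTi0 : Ti 0 = s₀ := by rw [← hΘ0, hTi1]
  have hφ' : ∀ᶠ z in 𝓝 (0 : E (m + 1)), φ (Ti z) = z 0 := by
    have h1 : Tendsto Ti (𝓝 0) (𝓝 s₀) := by
      have := hTic.continuousAt (x := (0 : E (m + 1)))
      unfold ContinuousAt at this
      rwa [hTi0] at this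
    filter_upwards [h1.eventually hΘe, h1.eventually he3] with z hz1 hz2
    rw [hTi2] at hz1
    rw [← hz1, hs₀, sub_zero] at hz2
    exact hz2.symm
  have hN' : IsOpen (Ti ⁻¹' N) := hN.preimage hTic
  have h0N' : (0 : E (m + 1)) ∈ Ti ⁻¹' N := by
    rw [mem_preimage, hTi0]
    exact hs₀N
  have hL' : IsCompact (Θ '' L) := hL.image hΘc
  have h0L' : (0 : E (m + 1)) ∈ (Θ '' L)ᶜ := by
    rintro ⟨x, hx, hx0⟩
    rw [← hΘ0] at hx0
    have h1 := (hLN x hx).2
    rw [hΘb.1 hx0, hs₀] at h1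
    exact lt_irrefl _ h1
  have hev : {z | Ti z ∈ N ∧ φ (Ti z) = z 0 ∧ z ∈ (Θ '' L)ᶜ} ∈ 𝓝 (0 : E (m + 1)) := by
    filter_upwards [hN'.mem_nhds h0N', hφ', hL'.isClosed.isOpen_compl.mem_nhds h0L'] with z h1 h2 h3
    exact ⟨h1, h2, h3⟩
  obtain ⟨ε, hε, hball⟩ := Metric.mem_nhds_iff.1 hev
  have hsm : ∀ z : E (m + 1), ‖z‖ ≤ 2 * (ε / 4) → Ti z ∈ N ∧ φ (Ti z) = z 0 ∧ z ∈ (Θ '' L)ᶜ := by
    intro z hz
    apply hball
    rw [mem_ball_zero_iff]
    linarith
  have hΘcd : ContDiff ℝ ∞ Θ := contDiff_iff_contDiffAt.2 fun x => (hΘd x).contDiffAt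
  obtain ⟨g', hg1, hg2, hg3, hg4⟩ := hF m (Ti ⁻¹' N) (fun z => φ (Ti z)) (ε / 4) (by linarith) hN'
    (hφc.comp hTic.continuousOn fun z hz => hz)
    (fun z hz hz0 => (hTic.continuousAt.eventually (hφ _ hz hz0)).mono fun y hy =>
      hy.comp y (hTid y).contDiffAt)
    (by
      have h1 : {z | z ∈ Ti ⁻¹' N ∧ φ (Ti z) ≤ 0} = Θ '' {z | z ∈ N ∧ φ z ≤ 0} := by
        ext z
        constructor
        · intro hz
          exact ⟨Ti z, hz, hTi2 z⟩
        · rintro ⟨x, hx, rfl⟩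
          show Ti (Θ x) ∈ N ∧ φ (Ti (Θ x)) ≤ 0
          rw [hTi1]
          exact hx
      rw [h1]
      exact hcomp.image hΘc)
    (by
      intro z hz hz0 hcon
      obtain ⟨A, hA'⟩ := (hTid z).exists_equiv
      have h1 : HasFDerivAt (fun z => φ (Ti z)) ((fderiv ℝ φ (Ti z)).comp (A : E (m + 1) →L[ℝ] E (m + 1))) z :=
        ((hφ _ hz hz0).self_of_nhds.differentiableAt hn).hasFDerivAt.comp z hA'
      rw [h1.fderiv] at hcon
      apply hd (Ti z) hz hz0
      ext v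
      have h2 := congrArg (fun T : E (m + 1) →L[ℝ] ℝ => T (A.symm v)) hcon
      simpa using h2)
    (by
      intro z hz
      obtain ⟨h1, h2, -⟩ := hsm z hz
      refine ⟨h1, ?_, ?_⟩ <;> rw [h2])
    (by
      intro K' hK' hK'N
      obtain ⟨f, R, hf1, hf2, hf3, hf4, hf5⟩ := hK (Ti '' K') (hK'.image hTic) (by
        rintro _ ⟨z, hz, rfl⟩
        obtain ⟨h1, h2, h3⟩ := hK'N z hz
        refine ⟨h1, h2, fun h4 => h3 ?_⟩
        rw [← hTi2 z, h4, hΘ0])
      refine ⟨fun x => Θ (f x), R, hΘb.1.comp hf1, hΘcd.comp hf2, ?_, ?_, ?_⟩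
      · intro x
        obtain ⟨A, hA'⟩ := (hΘd (f x)).exists_equiv
        have h1 : HasFDerivAt (fun x => Θ (f x)) ((A : E (m + 1) →L[ℝ] E (m + 1)).comp (fderiv ℝ f x)) x :=
          hA'.comp x (hf2.contDiffAt.differentiableAt hn).hasFDerivAt
        rw [h1.fderiv]
        intro a b hab
        exact hf3 x (A.injective hab)
      · intro x
        obtain ⟨h1, h2, h3⟩ := hf4 x
        refine ⟨?_, ?_, ?_⟩
        · show Ti (Θ (f x)) ∈ N
          rw [hTi1]
          exact h1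
        · show φ (Ti (Θ (f x))) = 0
          rw [hTi1]
          exact h2
        · intro h4
          apply h3
          apply hΘb.1
          rw [hΘ0]
          exact h4
      · intro z hz
        obtain ⟨y, hy, hyz⟩ := hf5 ⟨z, hz, rfl⟩
        refine ⟨y, hy, ?_⟩
        show Θ (f y) = z
        rw [hyz, hTi2])
    (Θ '' L) hL'
    (by
      rintro _ ⟨x, hx, rfl⟩
      refine ⟨?_, ?_, ?_⟩
      · show Ti (Θ x) ∈ N
        rw [hTi1]
        exact (hLN x hx).1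
      · show φ (Ti (Θ x)) < 0
        rw [hTi1]
        exact (hLN x hx).2
      · by_contra hcon
        exact (hsm (Θ x) (not_lt.1 hcon)).2.2 ⟨x, hx, rfl⟩)
  have hTib : Injective Ti := fun a b hab => by rw [← hTi2 a, hab, hTi2]
  refine ⟨fun x => Ti (g' x), hTib.comp hg1, fun x => LD.comp_fun (hTid _) (hg2 x), ?_, hg4⟩
  intro x hx
  obtain ⟨y, hy⟩ := hg3 ⟨x, hx, rfl⟩
  refine ⟨y, ?_⟩
  show Ti (g' y) = x
  rw [hy, hTi1]

end Pool.Agent.Y419.SH
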